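import Pool.Agent.Helper33.QB.Frame

/-!
# Project QB, module MD1: generic sequences which meet the requirements
-/

set_option autoImplicit false

namespace Pool.Agent.Helper33.QB

open Set Pool.Agent.Helper33.HMG Pool.Agent.Helper32.HB

/-! ### Check names are injective -/

section Inj

theorem h38_range {A B : Type 1} {C : Type 2} {f : A → C} {f' : B → C} (h : A = B)
    (h' : HEq f f') : range f = range f' := by
  subst h
  rw [eq_of_heq h']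

variable {P : Type 1} [Preorder P] [OrderTop P] {Ω : Type} [LinearOrder Ω] [WellFoundedLT Ω]

theorem h38_chk_range {A B : Type} {f : A → PSet.{0}} {f' : B → PSet.{0}}
    (h : (chk ⟨A, f⟩ : Nm P) = chk ⟨B, f'⟩) :
    range (fun a => (chk (f a) : Nm P)) = range fun a => (chk (f' a) : Nm P) := by
  simp only [chk, Nm.mk.injEq] at h
  have h1 := h38_range h.1 h.2.1
  ext z
  constructor
  · rintro ⟨a, rfl⟩
    have h2 : chk (f a) ∈ range (fun a : ULift.{1} A => (chk (f a.down) : Nm P)) := ⟨⟨a⟩, rfl⟩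
    rw [h1] at h2
    obtain ⟨c, hc⟩ := h2
    exact ⟨c.down, hc⟩
  · rintro ⟨a, rfl⟩
    have h2 : chk (f' a) ∈ range (fun a : ULift.{1} B => (chk (f' a.down) : Nm P)) := ⟨⟨a⟩, rfl⟩
    rw [← h1] at h2
    obtain ⟨c, hc⟩ := h2
    exact ⟨c.down, hc⟩

theorem h38_ck_inj {x y : Ω} (h : (ck x : Nm P) = ck y) : x = y := by
  induction x using (wellFounded_lt (α := Ω)).induction generalizing y with
  | _ x ih =>
    rcases lt_trichotomy x y with h1 | h1 | h1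
    · exfalso
      have h2 := h
      rw [ck, ck, ps_eq x, ps_eq y] at h2
      have h3 := h38_chk_range h2
      have h4 : (ck x : Nm P) ∈ range fun a : {z : Ω // z < y} => (chk (ps a.1) : Nm P) :=
        ⟨⟨x, h1⟩, rfl⟩
      rw [← h3] at h4
      obtain ⟨z, hz⟩ := h4
      have h5 : (ck z.1 : Nm P) = ck x := hz
      exact absurd (ih z.1 z.2 h5) (ne_of_lt z.2)
    · exact h1
    · exact absurd (ih y h1 h.symm) (ne_of_lt h1)

theorem h38_ckS_inj {K K' : Set Ω} (h : (ckS K : Nm P) = ckS K') : K = K' := by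
  have h3 := h38_chk_range (P := P) h
  ext x
  constructor
  · intro hx
    have h4 : (ck x : Nm P) ∈ range fun a : K => (chk (ps a.1) : Nm P) := ⟨⟨x, hx⟩, rfl⟩
    rw [h3] at h4
    obtain ⟨z, hz⟩ := h4
    have h5 : z.1 = x := h38_ck_inj hz
    exact h5 ▸ z.2
  · intro hx
    have h4 : (ck x : Nm P) ∈ range fun a : K' => (chk (ps a.1) : Nm P) := ⟨⟨x, hx⟩, rfl⟩
    rw [← h3] at h4
    obtain ⟨z, hz⟩ := h4
    have h5 : z.1 = x := h38_ck_inj hz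
    exact h5 ▸ z.2

end Inj

variable {Ω : Type} [LinearOrder Ω] [WellFoundedLT Ω] {α : Ordinal.{0}} [Fact (Ind α)]
  {b : Ordinal.{0} → NmD Ω Ordinal.{0}} {R : Type}
  {W : R → (ℕ → Nm (CP Ω α b)) → CP Ω α b → Nm (CP Ω α b) → Prop} {a0 : Ω} {g : Gen W}

/-- Existence of good generic sequences. -/
theorem exists_gd (hunc : Uncountable Ω) (hseg : ∀ x : Ω, (Iio x).Countable) (h0 : ot a0 = α)
    (hb : Book α b) :
    ∃ (R : Type) (W : R → (ℕ → Nm (CP Ω α b)) → CP Ω α b → Nm (CP Ω α b) → Prop) (g : Gen W),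
      Gd a0 g := by
  have hc : Countable {x : Ω // x ≤ a0} := by
    have h1 : (Iic a0).Countable := by
      have h2 : Iic a0 = insert a0 (Iio a0) := by
        ext x
        simp [le_iff_eq_or_lt]
      rw [h2]
      exact (hseg a0).insert a0
    exact h1.to_subtype
  obtain ⟨R₁, W₁, g, h1, h2, -⟩ := exists_point (P := CP Ω α b) (R := Rq0 ⊕ {x : Ω // x ≤ a0})
    (R' := Empty) (Wq (α := α) (b := b) a0) (fun r => r.elim) (fun r => r.elim)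
  exact ⟨R₁, W₁, g, ⟨hunc, h0, hseg, hb, h1, h2⟩⟩

/-- A requirement which is dense below some condition is met. -/
theorem Gd.get (hg : Gd a0 g) (r : Rq0 ⊕ {x : Ω // x ≤ a0}) (t : List (Nm (CP Ω α b)))
    (ht : ∀ x ∈ t, x ∈ g.N) {k : ℕ} (hd : ∀ l ≥ k, ∃ q ≤ g.pc l, ∃ X, Wq a0 r (asg t) q X) :
    ∃ l, ∃ X ∈ g.N, Wq a0 r (asg t) (g.pc l) X := by
  obtain ⟨l, hl | hl⟩ := hg.rq r t ht
  · exact ⟨l, hl⟩
  · exfalso
    obtain ⟨q, hq, X, hX⟩ := hd (max k l) (le_max_left _ _)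
    exact hl q (hq.trans (g.pc_le (le_max_right _ _))) X hX

/-- Requirements which are met by every condition. -/
theorem h38_get (hg : Gd a0 g) (r : Rq0 ⊕ {x : Ω // x ≤ a0}) (t : List (Nm (CP Ω α b)))
    (ht : ∀ x ∈ t, x ∈ g.N) (X : Nm (CP Ω α b)) (hX : ∀ q, Wq a0 r (asg t) q X) :
    ∃ l, ∃ X ∈ g.N, Wq a0 r (asg t) (g.pc l) X :=
  hg.get r t ht (k := 0) fun l _ => ⟨g.pc l, le_rfl, X, hX _⟩

theorem Gd.ck_mem (hg : Gd a0 g) {x : Ω} (hx : x ≤ a0) : ck x ∈ g.N := by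
  obtain ⟨l, X, hX, h⟩ := h38_get hg (.inr ⟨x, hx⟩) [] (by simp) (ck x) fun q => rfl
  have h1 : X = ck x := h
  exact h1 ▸ hX

theorem Gd.up (hg : Gd a0 g) {σ τ : Nm (CP Ω α b)} (hσ : σ ∈ g.N) (hτ : τ ∈ g.N) :
    upairN σ τ ∈ g.N := by
  obtain ⟨l, X, hX, h⟩ := h38_get hg (.inl .upair) [σ, τ] (by simp [hσ, hτ]) (upairN σ τ)
    fun q => rfl
  have h1 : X = upairN σ τ := h
  exact h1 ▸ hX

theorem Gd.op (hg : Gd a0 g) {σ τ : Nm (CP Ω α b)} (hσ : σ ∈ g.N) (hτ : τ ∈ g.N) :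
    opN σ τ ∈ g.N :=
  hg.up (hg.up hσ hσ) (hg.up hσ hτ)

theorem Gd.wN (hg : Gd a0 g) : (ckS (univ : Set Ω) : Nm (CP Ω α b)) ∈ g.N := by
  obtain ⟨l, X, hX, h⟩ := h38_get hg (.inl .om) [] (by simp) (ckS univ) fun q => rfl
  have h1 : X = ckS univ := h
  exact h1 ▸ hX

theorem Gd.ringN (hg : Gd a0 g) : (QB.ringN : Nm (CP Ω α b)) ∈ g.N := by
  obtain ⟨l, X, hX, h⟩ := h38_get hg (.inl .ring) [] (by simp) QB.ringN fun q => rfl
  have h1 : X = QB.ringN := h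
  exact h1 ▸ hX

theorem Gd.rankN (hg : Gd a0 g) : (QB.rankN : Nm (CP Ω α b)) ∈ g.N := by
  obtain ⟨l, X, hX, h⟩ := h38_get hg (.inl .rank) [] (by simp) QB.rankN fun q => rfl
  have h1 : X = QB.rankN := h
  exact h1 ▸ hX

theorem Gd.injS (hg : Gd a0 g) {x : Ω} (hx : ck x ∈ g.N) :
    (injN (Iio x) : Nm (CP Ω α b)) ∈ g.N := by
  obtain ⟨l, X, hX, h⟩ := h38_get hg (.inl .seg) [ck x] (by simp [hx]) (injN (Iio x))
    fun q => ⟨x, rfl, rfl⟩
  obtain ⟨x', h1, h2⟩ := h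
  have h3 : x = x' := h38_ck_inj h1
  subst h3
  exact h2 ▸ hX

theorem Gd.injK (hg : Gd a0 g) {K : Set Ω} (hK : ckS K ∈ g.N) :
    (injN K : Nm (CP Ω α b)) ∈ g.N := by
  obtain ⟨l, X, hX, h⟩ := h38_get hg (.inl .ctb) [ckS K] (by simp [hK]) (injN K)
    fun q => ⟨K, rfl, rfl⟩
  obtain ⟨x', h1, h2⟩ := h
  have h3 : K = x' := h38_ckS_inj h1
  subst h3
  exact h2 ▸ hX

theorem Gd.unN (hg : Gd a0 g) {K K' : Set Ω} (hK : ckS K ∈ g.N) (hK' : ckS K' ∈ g.N) :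
    (ckS (K ∪ K') : Nm (CP Ω α b)) ∈ g.N := by
  obtain ⟨l, X, hX, h⟩ := h38_get hg (.inl .un) [ckS K, ckS K'] (by simp [hK, hK'])
    (ckS (K ∪ K')) fun q => ⟨K, K', rfl, rfl, rfl⟩
  obtain ⟨K1, K2, h1, h2, h3⟩ := h
  have h4 : K = K1 := h38_ckS_inj h1
  have h5 : K' = K2 := h38_ckS_inj h2
  subst h4 h5
  exact h3 ▸ hX

theorem Gd.dfN (hg : Gd a0 g) {K K' : Set Ω} (hK : ckS K ∈ g.N) (hK' : ckS K' ∈ g.N) :
    (ckS (K \ K') : Nm (CP Ω α b)) ∈ g.N := by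
  obtain ⟨l, X, hX, h⟩ := h38_get hg (.inl .df) [ckS K, ckS K'] (by simp [hK, hK'])
    (ckS (K \ K')) fun q => ⟨K, K', rfl, rfl, rfl⟩
  obtain ⟨K1, K2, h1, h2, h3⟩ := h
  have h4 : K = K1 := h38_ckS_inj h1
  have h5 : K' = K2 := h38_ckS_inj h2
  subst h4 h5
  exact h3 ▸ hX

end Pool.Agent.Helper33.QB
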